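import Pool.Agent.U549.FW.Cubic2

/-!
# The first case and the mixed cases of Fermat's Last Theorem over cubic fields

Let `K` be a cubic field (with any signature), `p ≥ 7` a prime number, `n` a multiple of `p` and
`x ^ n + y ^ n = z ^ n` with nonzero `x`, `y`, `z` in `K`. Nothing is assumed about the class number
and the units of `K`, or about the primes above `p`.

At every prime `v` of `K` the valuations of `x`, `y`, `z` are equal, or one of the three is divisible
by a higher power of `v` than the two others; we say that `v` divides it. Let `D_l (x)`, `D_l (y)`,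
`D_l (z)`, `E_l` be the sums of the local degrees of the primes above the prime number `l` which divide
`x`, `y`, `z`, and of those at which the valuations are equal; so `D_l (x) + D_l (y) + D_l (z) + E_l`
is three. Let `q` be an auxiliary prime: `q ≠ p` is a prime number for which `q ^ (p - 1)` is not `1`
modulo `p ^ 2`, and for every prime `v` above `q` the norm of `v` is at most four, or `v` divides one
of `x`, `y`, `z` and has a norm which is not `1` modulo `p`. We prove:

(1) (Criterion of Wieferich and Furtwängler for cubic fields.) If the valuations are equal at all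
    primes above `p` (the first case), then `2 ^ (p - 1)` is `1` modulo `p ^ 2`, or `p` divides the
    numerator of the Bernoulli number with the index `p - 3` and `E_q = 0` and one of `D_q (x)`,
    `D_q (y)`, `D_q (z)` is at least two, for all auxiliary primes `q`.
(2) If `p` does not divide this numerator (known computations: it does for `16843` and `2124679` only
    among the primes below `10 ^ 9`), then for every auxiliary prime `q`
    (i) every prime above `p` divides one of `x`, `y`, `z` (the second case); or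
    (ii) (the exceptional case) `E_p = E_q = 2` and `D_p = D_q` for `x`, `y` and `z`; or
    (iii) the first case occurs and `2 ^ (p - 1)` is `1` modulo `p ^ 2`.
(3) If moreover two is not inert in `K` (every prime above two has a norm at most four) and
    `2 ^ (p - 1)` is not `1` modulo `p ^ 2`, then (i) or (ii) is true with `q = 2`; in particular at
    least one prime above `p` divides one of `x`, `y`, `z`: the first case of Fermat's Last Theorem is
    true for `K` and the exponent `n`.
(4) If every prime above two has the norm two and `2 ^ (p - 1)` is not `1` modulo `p ^ 2`, then (i) is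
    true: every prime above `p` divides one of `x`, `y`, `z`, and there are no mixed cases.

The results for cubic fields in the starting files and in `EqualValuations` need that `p` does not
divide the Bernoulli numbers with the indices `p - 3`, `p - 5` and `p - 7`, or a bound for the index
of irregularity; (1) has no counterpart there.

Proof. Let `X, Y, Z` be integral multiples of `x ^ (n / p)`, `y ^ (n / p)`, `- z ^ (n / p)` which are
not all divisible by the same prime above `p`. The trace formula in `FurtwaenglerTheorem` gives the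
sums over the embeddings with equal valuations of the residues modulo `p` of `(X - Y) / Z`,
`(Y - Z) / X` and `(Z - X) / Y` as differences of numbers of embeddings. If `p` does not divide the
Bernoulli number with the index `p - 3`, then the logarithmic derivative of order three of the
polynomial `N (X + T Y)` modulo `p` at `T = 1`, together with the relations of all Jacobi sums, gives
that the corresponding sums of `X Y (X - Y) / Z ^ 3` and its permutations vanish. For three embeddings
the equations of the first kind, and the ones of the second kind for the values of `D_q` in (1),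
imply that two of `X`, `Y`, `Z` have the same residue at one embedding, and then `2 ^ (p - 1)` is `1`
modulo `p ^ 2`. For two embeddings all the equations have no solution except in the case (ii). A single
embedding is impossible by the product formula at `T = 2`.
-/

set_option autoImplicit false

namespace Pool.Agent.Results.MP_ef6a16_nt.CubicFields

open NumberField IsDedekindDomain

/-- `q` is a prime number other than `p`, and `q ^ (p - 1)` is not `1` modulo `p ^ 2` -/
def Aux (p q : ℕ) : Prop := q.Prime ∧ q ≠ p ∧ ¬ p ^ 2 ∣ q ^ (p - 1) - 1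

section

variable {K : Type} [Field K] [NumberField K]

/-- the local degree of `v` over `l`, the product of the ramification index and the residue
degree -/
noncomputable def locDeg (l : ℕ) (v : HeightOneSpectrum (𝓞 K)) : ℕ :=
  Ideal.ramificationIdx' (Ideal.span {(l : ℤ)}) v.asIdeal *
    Ideal.inertiaDeg' (Ideal.span {(l : ℤ)}) v.asIdeal

/-- `x`, `y` and `z` have the same valuation at `v` -/
def EqualAt (v : HeightOneSpectrum (𝓞 K)) (x y z : K) : Prop :=
  v.valuation K x = v.valuation K y ∧ v.valuation K y = v.valuation K z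

/-- `v` divides `x` to a higher power than `y` and `z` (its valuation, in multiplicative notation, is
smaller) -/
def Divides (v : HeightOneSpectrum (𝓞 K)) (x y z : K) : Prop :=
  v.valuation K x < v.valuation K y ∧ v.valuation K x < v.valuation K z

/-- the sum of the local degrees of the primes above `l` which divide `x` to a higher power than `y`
and `z` -/
noncomputable def divDeg (l : ℕ) (x y z : K) : ℕ :=
  ∑ᶠ (v : HeightOneSpectrum (𝓞 K)) (_ : ((l : ℕ) : 𝓞 K) ∈ v.asIdeal ∧ Divides v x y z), locDeg l v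

/-- the sum of the local degrees of the primes above `l` at which `x`, `y`, `z` have the same
valuation -/
noncomputable def eqDeg (l : ℕ) (x y z : K) : ℕ :=
  ∑ᶠ (v : HeightOneSpectrum (𝓞 K)) (_ : ((l : ℕ) : 𝓞 K) ∈ v.asIdeal ∧ EqualAt v x y z), locDeg l v

/-- every prime `v` above `q` has a norm at most four, or `v` divides one of `x`, `y`, `z` (the
valuations are not equal) and its norm is not `1` modulo `p` -/
def Fine (p q : ℕ) (x y z : K) : Prop :=
  ∀ v : HeightOneSpectrum (𝓞 K), ((q : ℕ) : 𝓞 K) ∈ v.asIdeal →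
    Ideal.absNorm v.asIdeal ≤ 4 ∨ (¬ EqualAt v x y z ∧ ¬ p ∣ Ideal.absNorm v.asIdeal - 1)

/-- the valuations of `x`, `y`, `z` are not equal at any prime above `l` -/
def NoEqual (l : ℕ) (x y z : K) : Prop :=
  ∀ v : HeightOneSpectrum (𝓞 K), ((l : ℕ) : 𝓞 K) ∈ v.asIdeal → ¬ EqualAt v x y z

/-- the first case: the valuations of `x`, `y`, `z` are equal at every prime above `p` -/
def FirstCase (p : ℕ) (x y z : K) : Prop :=
  ∀ v : HeightOneSpectrum (𝓞 K), ((p : ℕ) : 𝓞 K) ∈ v.asIdeal → EqualAt v x y z

/-- the exceptional case: the primes above `p`, and also those above `q`, at which the valuations are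
equal have local degrees of sum two, and the remaining prime above `p` and the remaining prime above
`q` divide the same one of `x`, `y`, `z` -/
def Exceptional (p q : ℕ) (x y z : K) : Prop :=
  eqDeg p x y z = 2 ∧ eqDeg q x y z = 2 ∧ divDeg q x y z = divDeg p x y z ∧
    divDeg q y z x = divDeg p y z x ∧ divDeg q z x y = divDeg p z x y

theorem lt_pow {k : ℕ} (hk : k ≠ 0) (v : HeightOneSpectrum (𝓞 K)) (x y : K) :
    v.valuation K (x ^ k) < v.valuation K (y ^ k) ↔ v.valuation K x < v.valuation K y := by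
  rw [map_pow, map_pow]
  exact pow_lt_pow_iff_left₀ zero_le zero_le hk

theorem eq_pow {k : ℕ} (hk : k ≠ 0) (v : HeightOneSpectrum (𝓞 K)) (x y : K) :
    v.valuation K (x ^ k) = v.valuation K (y ^ k) ↔ v.valuation K x = v.valuation K y := by
  rw [map_pow, map_pow]
  exact pow_left_inj₀ zero_le zero_le hk

theorem div_pow {k : ℕ} (hk : k ≠ 0) (v : HeightOneSpectrum (𝓞 K)) (x y z : K) :
    (Divides v (x ^ k) (y ^ k) (-z ^ k) ↔ Divides v x y z) ∧
    (Divides v (y ^ k) (-z ^ k) (x ^ k) ↔ Divides v y z x) ∧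
    (Divides v (-z ^ k) (x ^ k) (y ^ k) ↔ Divides v z x y) ∧
    (EqualAt v (x ^ k) (y ^ k) (-z ^ k) ↔ EqualAt v x y z) := by
  unfold Divides EqualAt
  simp only [Valuation.map_neg, lt_pow hk, eq_pow hk]
  exact ⟨trivial, trivial, trivial, trivial⟩

theorem Fine.good {p q : ℕ} (hp5 : 5 ≤ p) {a b c : K} (h : Fine p q a b c) :
    U549.FW.Good p q a b c := by
  intro v hv
  rcases h v hv with h1 | h1
  · refine ⟨fun _ hd => ?_, fun _ => Or.inl h1⟩
    have hfin : Finite (𝓞 K ⧸ v.asIdeal) :=
      Ideal.finiteQuotientOfFreeOfNeBot v.asIdeal v.ne_bot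
    have hnt : Nontrivial (𝓞 K ⧸ v.asIdeal) :=
      Ideal.Quotient.nontrivial_iff.2 v.isPrime.ne_top
    have hck : Nat.card (𝓞 K ⧸ v.asIdeal) = Ideal.absNorm v.asIdeal := rfl
    have h2 : 1 < Ideal.absNorm v.asIdeal := by
      rw [← hck]
      exact Finite.one_lt_card
    have := Nat.le_of_dvd (by omega) hd
    omega
  · exact ⟨fun _ => h1.2, fun h2 => absurd h2 h1.1⟩

theorem res_two (v : HeightOneSpectrum (𝓞 K)) (hN : Ideal.absNorm v.asIdeal = 2) (a : 𝓞 K)
    (ha : a ∉ v.asIdeal) : a - 1 ∈ v.asIdeal := by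
  have hnt : Nontrivial (𝓞 K ⧸ v.asIdeal) := Ideal.Quotient.nontrivial_iff.2 v.isPrime.ne_top
  have hck : Nat.card (𝓞 K ⧸ v.asIdeal) = 2 := hN
  obtain ⟨y, -, hy⟩ := (Nat.card_eq_two_iff' (0 : 𝓞 K ⧸ v.asIdeal)).1 hck
  have h1 : Ideal.Quotient.mk v.asIdeal a = 1 := by
    rw [hy 1 one_ne_zero]
    apply hy
    intro h0
    exact ha (Ideal.Quotient.eq_zero_iff_mem.1 h0)
  rw [← Ideal.Quotient.eq_zero_iff_mem, map_sub, map_one, h1, sub_self]

/-- the valuations are not equal at a prime of norm two -/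
theorem two_ne_eq {p : ℕ} (hp0 : p ≠ 0) {a b c : K} (ha : a ≠ 0) (hb : b ≠ 0) (hc : c ≠ 0)
    (h : a ^ p + b ^ p + c ^ p = 0) (v : HeightOneSpectrum (𝓞 K))
    (hv : ((2 : ℕ) : 𝓞 K) ∈ v.asIdeal) (hN : Ideal.absNorm v.asIdeal = 2) :
    ¬ EqualAt v a b c := by
  intro hE
  obtain ⟨α, hα, X, Y, Z, hXa, hYa, hZa, hX0, hY0, hZ0, hcp⟩ :=
    U549.FW.prepM 2 two_ne_zero ha hb hc 2 Nat.prime_two (dvd_refl 2)
  have hXYZ : X ^ p + Y ^ p + Z ^ p = 0 := by
    apply RingOfIntegers.coe_injective
    rw [map_zero, map_add, map_add, map_pow, map_pow, map_pow, hXa, hYa, hZa, mul_pow, mul_pow,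
      mul_pow]
    linear_combination α ^ p * h
  obtain ⟨h1, h2, h3⟩ := (U549.FW.vals hp0 hα hXa hYa hZa hXYZ hcp v hv).2.2 hE
  have key : ∀ W : 𝓞 K, W ∉ v.asIdeal → W ^ p - 1 ∈ v.asIdeal := by
    intro W hW
    have h4 := res_two v hN W hW
    have h5 := sub_dvd_pow_sub_pow W 1 p
    rw [one_pow] at h5
    exact v.asIdeal.mem_of_dvd h5 h4
  have hv2 : (2 : 𝓞 K) ∈ v.asIdeal := by exact_mod_cast hv
  apply (Ideal.ne_top_iff_one v.asIdeal).1 v.isPrime.ne_top
  have e : (1 : 𝓞 K) = -((X ^ p - 1) + (Y ^ p - 1) + (Z ^ p - 1)) - 2 := by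
    linear_combination hXYZ
  rw [e]
  exact v.asIdeal.sub_mem (v.asIdeal.neg_mem (v.asIdeal.add_mem
    (v.asIdeal.add_mem (key X h1) (key Y h2)) (key Z h3))) hv2

end

theorem result (K : Type) [Field K] [NumberField K] (hK : Module.finrank ℚ K = 3)
    (p n : ℕ) (hp : p.Prime) (h7 : 7 ≤ p) (hn : p ∣ n)
    (x y z : K) (h : x ^ n + y ^ n = z ^ n) (hx : x ≠ 0) (hy : y ≠ 0) (hz : z ≠ 0) :
    -- (1)
    (∀ q : ℕ, Aux p q → Fine p q x y z → FirstCase p x y z →
      p ^ 2 ∣ 2 ^ (p - 1) - 1 ∨ ((p : ℤ) ∣ (bernoulli (p - 3)).num ∧ eqDeg q x y z = 0 ∧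
        (2 ≤ divDeg q x y z ∨ 2 ≤ divDeg q y z x ∨ 2 ≤ divDeg q z x y))) ∧
    (¬ (p : ℤ) ∣ (bernoulli (p - 3)).num →
      -- (2)
      (∀ q : ℕ, Aux p q → Fine p q x y z →
        NoEqual p x y z ∨ Exceptional p q x y z ∨
          (FirstCase p x y z ∧ p ^ 2 ∣ 2 ^ (p - 1) - 1)) ∧
      -- (3)
      (¬ p ^ 2 ∣ 2 ^ (p - 1) - 1 →
        (∀ v : HeightOneSpectrum (𝓞 K), ((2 : ℕ) : 𝓞 K) ∈ v.asIdeal →
          Ideal.absNorm v.asIdeal ≤ 4) →
        (NoEqual p x y z ∨ Exceptional p 2 x y z) ∧ ¬ FirstCase p x y z) ∧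
      -- (4)
      (¬ p ^ 2 ∣ 2 ^ (p - 1) - 1 →
        (∀ v : HeightOneSpectrum (𝓞 K), ((2 : ℕ) : 𝓞 K) ∈ v.asIdeal →
          Ideal.absNorm v.asIdeal = 2) →
        NoEqual p x y z)) := by
  have hfp : Fact p.Prime := ⟨hp⟩
  obtain ⟨k, rfl⟩ := hn
  have hk : k ≠ 0 := by
    rintro rfl
    rw [mul_zero, pow_zero, pow_zero, pow_zero] at h
    norm_num at h
  have hodd : Odd p := hp.odd_of_ne_two (by omega)
  have hp0 := hp.ne_zero
  have ha : x ^ k ≠ 0 := pow_ne_zero k hx
  have hb : y ^ k ≠ 0 := pow_ne_zero k hy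
  have hc : -z ^ k ≠ 0 := neg_ne_zero.2 (pow_ne_zero k hz)
  have hF : (x ^ k) ^ p + (y ^ k) ^ p + (-z ^ k) ^ p = 0 := by
    rw [hodd.neg_pow, ← pow_mul, ← pow_mul, ← pow_mul, mul_comm k p, h]
    ring
  have d1 : ∀ l : ℕ, U549.FW.share l (x ^ k) (y ^ k) (-z ^ k) = divDeg l x y z := by
    intro l
    refine finsum_congr fun v => finsum_congr_Prop (propext ?_) fun _ => rfl
    exact and_congr_right fun _ => (div_pow hk v x y z).1
  have d2 : ∀ l : ℕ, U549.FW.share l (y ^ k) (-z ^ k) (x ^ k) = divDeg l y z x := by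
    intro l
    refine finsum_congr fun v => finsum_congr_Prop (propext ?_) fun _ => rfl
    exact and_congr_right fun _ => (div_pow hk v x y z).2.1
  have d3 : ∀ l : ℕ, U549.FW.share l (-z ^ k) (x ^ k) (y ^ k) = divDeg l z x y := by
    intro l
    refine finsum_congr fun v => finsum_congr_Prop (propext ?_) fun _ => rfl
    exact and_congr_right fun _ => (div_pow hk v x y z).2.2.1
  have d4 : ∀ l : ℕ, U549.FW.evenShare l (x ^ k) (y ^ k) (-z ^ k) = eqDeg l x y z := by
    intro l
    refine finsum_congr fun v => finsum_congr_Prop (propext ?_) fun _ => rfl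
    exact and_congr_right fun _ => (div_pow hk v x y z).2.2.2
  have fine1 : ∀ l : ℕ, Fine p l x y z → Fine p l (x ^ k) (y ^ k) (-z ^ k) := by
    intro l hl v hv
    rw [(div_pow hk v x y z).2.2.2]
    exact hl v hv
  have rotE : ∀ (v : HeightOneSpectrum (𝓞 K)) {a b c : K}, EqualAt v b c a → EqualAt v a b c :=
    fun v {a b c} h => ⟨(h.1.trans h.2).symm, h.1⟩
  have fineR : ∀ (l : ℕ) {a b c : K}, Fine p l a b c → Fine p l b c a := by
    intro l a b c hl v hv
    rcases hl v hv with h1 | h1
    · exact Or.inl h1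
    · exact Or.inr ⟨fun h2 => h1.1 (rotE v h2), h1.2⟩
  have degp : eqDeg p x y z = 0 → NoEqual p x y z := by
    intro h0 v hv hE
    rw [← d4] at h0
    have h1 := U549.FW.deg_pos hp
      (fun v => EqualAt v (x ^ k) (y ^ k) (-z ^ k)) v hv ((div_pow hk v x y z).2.2.2.2 hE)
    change 0 < U549.FW.evenShare p (x ^ k) (y ^ k) (-z ^ k) at h1
    omega
  have hfc : FirstCase p (x ^ k) (y ^ k) (-z ^ k) → FirstCase p x y z :=
    fun h v hv => (div_pow hk v x y z).2.2.2.1 (h v hv)
  have P0 : ∀ q : ℕ, Aux p q → Fine p q x y z → FirstCase p x y z →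
      p ^ 2 ∣ 2 ^ (p - 1) - 1 ∨ ((p : ℤ) ∣ (bernoulli (p - 3)).num ∧ eqDeg q x y z = 0 ∧
        (2 ≤ divDeg q x y z ∨ 2 ≤ divDeg q y z x ∨ 2 ≤ divDeg q z x y)) := by
    rintro q ⟨hq1, hqp, hWq⟩ hf hE
    by_cases hW : p ^ 2 ∣ 2 ^ (p - 1) - 1
    · exact Or.inl hW
    right
    have f1 := fine1 q hf
    by_contra hcon
    refine U549.FW.cub_first hK hp h7 hW ha hb hc hF (fun v hv => (div_pow hk v x y z).2.2.2.2
      (hE v hv)) hq1 hqp hWq (f1.good (by omega)) ((fineR q f1).good (by omega))
      ((fineR q (fineR q f1)).good (by omega)) fun hs h3 => hcon ⟨h3, ?_⟩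
    have k1 := U549.FW.part_K (K := K) hq1 hp0 ha hb hc hF
    unfold U549.FW.Spec at hs
    rw [d1, d2, d3] at hs k1
    rw [d4, hK] at k1
    omega
  refine ⟨P0, fun hB => ?_⟩
  have P1 : ∀ q : ℕ, Aux p q → Fine p q x y z → NoEqual p x y z ∨ Exceptional p q x y z ∨
      (FirstCase p x y z ∧ p ^ 2 ∣ 2 ^ (p - 1) - 1) := by
    rintro q ⟨hq1, hqp, hWq⟩ hf
    by_cases hW : FirstCase p x y z ∧ p ^ 2 ∣ 2 ^ (p - 1) - 1
    · exact Or.inr (Or.inr hW)
    have f1 := fine1 q hf
    have h1 := U549.FW.cub_all hK hp h7 hB ha hb hc hF hq1 hqp hWq (f1.good (by omega))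
      ((fineR q f1).good (by omega)) ((fineR q (fineR q f1)).good (by omega))
      (fun hE h2 => hW ⟨hfc hE, h2⟩)
    rw [d4, d4, d1, d2, d3, d1, d2, d3] at h1
    rcases h1 with h1 | h1
    · exact Or.inl (degp h1)
    · exact Or.inr (Or.inl h1)
  have P2 : ∀ q : ℕ, (NoEqual p x y z ∨ Exceptional p q x y z) → ¬ FirstCase p x y z := by
    intro q hq hcon
    rcases hq with hq | hq
    · obtain ⟨P, hP, hlP⟩ := Pool.Agent.Y546.WQ.exists_above (K := K) p hp
      have h0 : P ≠ ⊥ := by
        rintro rfl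
        rw [Ideal.mem_bot, Nat.cast_eq_zero] at hlP
        exact hp0 hlP
      exact hq ⟨P, hP, h0⟩ hlP (hcon ⟨P, hP, h0⟩ hlP)
    · have k1 := U549.FW.part_K (K := K) hp hp0 ha hb hc hF
      have z1 : U549.FW.share p (x ^ k) (y ^ k) (-z ^ k) = 0 :=
        U549.FW.deg_zero p _ fun v hv h2 =>
          absurd (hcon v hv).1 ((div_pow hk v x y z).1.1 h2).1.ne
      have z2 : U549.FW.share p (y ^ k) (-z ^ k) (x ^ k) = 0 :=
        U549.FW.deg_zero p _ fun v hv h2 =>
          absurd (hcon v hv).2 ((div_pow hk v x y z).2.1.1 h2).1.ne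
      have z3 : U549.FW.share p (-z ^ k) (x ^ k) (y ^ k) = 0 :=
        U549.FW.deg_zero p _ fun v hv h2 =>
          absurd (hcon v hv).2 ((div_pow hk v x y z).2.2.1.1 h2).2.ne'
      rw [d4, hK] at k1
      have := hq.1
      omega
  have P3 : ∀ q : ℕ, Aux p q → ¬ p ^ 2 ∣ 2 ^ (p - 1) - 1 → Fine p q x y z →
      NoEqual p x y z ∨ Exceptional p q x y z := by
    intro q hq hW hf
    rcases P1 q hq hf with h1 | h1 | h1
    · exact Or.inl h1
    · exact Or.inr h1
    · exact absurd h1.2 hW
  have hp2 : 2 ≠ p := by omega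
  refine ⟨P1, fun hW hN => ?_, fun hW hN => ?_⟩
  · have hf : Fine p 2 x y z := fun v hv => Or.inl (hN v hv)
    have h1 := P3 2 ⟨Nat.prime_two, hp2, hW⟩ hW hf
    exact ⟨h1, P2 2 h1⟩
  · have hf : Fine p 2 x y z := fun v hv => Or.inl (by rw [hN v hv]; norm_num)
    rcases P3 2 ⟨Nat.prime_two, hp2, hW⟩ hW hf with h1 | h1
    · exact h1
    · have h2 : eqDeg 2 x y z = 0 := by
        rw [← d4]
        exact U549.FW.deg_zero 2 _ fun v hv hE => two_ne_eq hp0 ha hb hc hF v hv (hN v hv) hE
      have h4 := h1.2.1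
      omega

end Pool.Agent.Results.MP_ef6a16_nt.CubicFields
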