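import Pool.Agent.U549.LF.Main

/-!
# Fermat's equation at the primes above `p` at which the three valuations are equal

Let `K` be any number field of degree `m`, let `p` be a prime, let `n` be a multiple of `p`, `n = p k`,
and let `x ^ n + y ^ n = z ^ n` with nonzero `x`, `y`, `z` in `K`. Nothing is assumed about the
divisibility of `x`, `y`, `z` by the primes above `p`, so the solution may belong to the first case,
to the second case or be of a mixed type. Let `S` be the set of the primes `v` of `K` above `p` at
which `x`, `y` and `z` have the same valuation. Let `C` be the set of those `v` in `S` for which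
`x ^ k / y ^ k` is a primitive cube root of unity modulo `v`, and `R` the set of the other elements
of `S`. Let `c` and `r` be the sums of the local degrees `[K_v : ℚ_p]` over `C` and over `R`; so
`r + c ≤ m`. Let `t = m`, or any number with `r + c ≤ t`. Suppose that

* `m + t + 3 ≤ p` and `p` does not divide the Bernoulli numbers with index `p - 3`, `p - 5`, ...,
  `p - 2 t - 1`; or
* `t (i + 1) (i + 2) + m + 3 ≤ p + t`, where `i` is the index of irregularity of `p`.

Then

(1) `c` is even; for `v` in `C` the number `(N v - 1) / gcd (N v - 1, n)` is divisible by six, and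
    `2 [K_v : ℚ_p] ≤ c` if `p = 1` modulo `3`;
(2) `r` is divisible by three, and `2 [K_v : ℚ_p] ≤ r` for all `v` in `R`; if the residue degree `f_v`
    is prime to three, then `3 [K_v : ℚ_p] ≤ r`; and if `f_v` is prime to six and `2 ^ (p - 1)` is not
    `1` modulo `p ^ 2` or `2` is not a `k`-th power modulo `v`, then `6 [K_v : ℚ_p] ≤ r`;
(3) if `r` is odd, then `2 ^ (p - 1) = 1` modulo `p ^ 2` and there are three different elements of `R`
    such that `2` is a `k`-th power modulo all of them and `- 1` modulo two of them.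

So `6` divides `r` if `2 ^ (p - 1)` is not `1` modulo `p ^ 2`. For instance, if moreover `m ≤ 5` (or if
`m ≤ 2`, without any condition of Wieferich), then `R` is empty: at every prime `v` above `p` either
the valuations of `x`, `y`, `z` are not all equal, or the solution is congruent to the trivial
solution `(1, ω, ω ^ 2)` modulo `v`; and the latter is impossible if the completion `K_v` does not
contain `ω`, or if `v` is the only such prime and `p = 1` modulo `3`.

The theorem contains all the five statements of `LargeLocalDegree`, which concern the first case,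
where `S` consists of all primes above `p` and `r + c = m` (and it makes them precise, since no
condition on `n` or on the decomposition of `p` is needed for the statements about `R`).

Proof. We may assume that `x ^ k`, `y ^ k`, `z ^ k` are integral and not all divisible by the same
prime above `p`. Let `X ^ p + Y ^ p + Z ^ p = 0` be the resulting equation and let `f` be the polynomial
`N (X + T Y)`. For `τ : K → N` with values in a field `N` containing all conjugates and a prime `Q`
of `N` above `p`, the factor `τ X + T τ Y` is congruent modulo `Q` to a multiple of `1 - T`, to a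
multiple of `T`, to a constant or to none of these, according as `Q` divides `τ Z`, `τ X`, `τ Y` or
none of them. So `f = u (T - 1) ^ a T ^ b g` modulo `p`, where `g` is the product of the factors which
belong to the elements of `S`, and its degree is `s = r + c`. The valuations of `f (ζ)` and of
`f (1)` at the primes of the cyclotomic field which do not divide `p` are congruent modulo `p`
(although `X` and `Y` need not be coprime there), and `f (ζ) / (ζ - 1) ^ a` is a value of an integral
polynomial which is congruent to `T ^ b g` modulo `p` and `(T - 1) ^ (p - 1 - a)` and prime to `p`.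
Stickelberger's relations for all Jacobi sums show that `g` is palindromic. Together with the same
statement for `(Y, Z)` it follows that the group `S₃` of the permutations of the coordinates acts on
the family of the residues of those conjugates of `(X : Y : Z)` which belong to `S`. It respects the
subfamilies of the conjugates which belong to `C`, the points `(1 : ω : ω ^ 2)` and
`(1 : ω ^ 2 : ω)`, and to `R`. An orbit of `S₃` on the points of the line `X + Y + Z = 0` has six
elements, except for `(1 : 1 : - 2)` and `(1 : ω : ω ^ 2)`; and the residues which belong to the same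
`v` are conjugate under the Frobenius, which commutes with `S₃`.
-/

set_option autoImplicit false

namespace Pool.Agent.Results.MP_ef6a16_nt.EqualValuations

open NumberField IsDedekindDomain

/-- The even numbers `k` with `2 ≤ k ≤ p - 3` for which `p` divides the numerator of the Bernoulli
number with index `k`. Their number is the index of irregularity of `p`. -/
def Irregular (p : ℕ) : Finset ℕ :=
  (Finset.range p).filter fun k => Even k ∧ 2 ≤ k ∧ k + 3 ≤ p ∧ (p : ℤ) ∣ (bernoulli k).num

section

variable {K : Type} [Field K] [NumberField K]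

/-- the residue degree of `v` over `p` -/
noncomputable def resDeg (p : ℕ) (v : HeightOneSpectrum (𝓞 K)) : ℕ :=
  Ideal.inertiaDeg' (Ideal.span {(p : ℤ)}) v.asIdeal

/-- the local degree of `v` over `p`, the product of the ramification index and the residue
degree -/
noncomputable def locDeg (p : ℕ) (v : HeightOneSpectrum (𝓞 K)) : ℕ :=
  Ideal.ramificationIdx' (Ideal.span {(p : ℤ)}) v.asIdeal * resDeg p v

/-- `x`, `y` and `z` have the same valuation at `v` -/
def EqualAt (v : HeightOneSpectrum (𝓞 K)) (x y z : K) : Prop :=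
  v.valuation K x = v.valuation K y ∧ v.valuation K y = v.valuation K z

/-- `x ^ k / y ^ k` is a primitive cube root of unity modulo `v` (the valuations of `x` and `y` being
equal and `v` not lying above `3`); in multiplicative notation, the value of
`x ^ (2 k) + x ^ k y ^ k + y ^ (2 k)` is smaller than that of `y ^ (2 k)` -/
def CubeAt (v : HeightOneSpectrum (𝓞 K)) (k : ℕ) (x y : K) : Prop :=
  v.valuation K ((x ^ k) ^ 2 + x ^ k * y ^ k + (y ^ k) ^ 2) < v.valuation K ((y ^ k) ^ 2)

end

theorem result (K : Type) [Field K] [NumberField K] (m : ℕ) (hm : Module.finrank ℚ K = m)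
    (p n : ℕ) (hp : p.Prime) (hn : p ∣ n)
    (x y z : K) (h : x ^ n + y ^ n = z ^ n) (hx : x ≠ 0) (hy : y ≠ 0) (hz : z ≠ 0)
    -- the primes above `p` with equal valuations
    (R C : Finset (HeightOneSpectrum (𝓞 K)))
    (hR : ∀ v : HeightOneSpectrum (𝓞 K), v ∈ R ↔ (((p : ℕ) : 𝓞 K) ∈ v.asIdeal ∧
      EqualAt v x y z ∧ ¬ CubeAt v (n / p) x y))
    (hC : ∀ v : HeightOneSpectrum (𝓞 K), v ∈ C ↔ (((p : ℕ) : 𝓞 K) ∈ v.asIdeal ∧
      EqualAt v x y z ∧ CubeAt v (n / p) x y))
    (r c t : ℕ) (hr : r = ∑ v ∈ R, locDeg p v) (hc : c = ∑ v ∈ C, locDeg p v)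
    (ht : t = m ∨ r + c ≤ t)
    (hB : (m + t + 3 ≤ p ∧ ∀ k ∈ Irregular p, k + 2 * t + 1 < p) ∨
      t * (((Irregular p).card + 1) * ((Irregular p).card + 2)) + m + 3 ≤ p + t) :
    -- (1)
    (Even c ∧ ∀ v ∈ C,
      6 ∣ (Ideal.absNorm v.asIdeal - 1) / Nat.gcd (Ideal.absNorm v.asIdeal - 1) n ∧
      (p % 3 = 1 → 2 * locDeg p v ≤ c)) ∧
    -- (2)
    (3 ∣ r ∧ ∀ v ∈ R, 2 * locDeg p v ≤ r ∧ (¬ 3 ∣ resDeg p v → 3 * locDeg p v ≤ r) ∧
      (¬ 2 ∣ resDeg p v → ¬ 3 ∣ resDeg p v →
        (¬ p ^ 2 ∣ 2 ^ (p - 1) - 1 ∨ ∀ w : 𝓞 K, w ^ (n / p) - 2 ∉ v.asIdeal) →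
        6 * locDeg p v ≤ r)) ∧
    -- (3)
    (Odd r → p ^ 2 ∣ 2 ^ (p - 1) - 1 ∧ ∃ v₁ ∈ R, ∃ v₂ ∈ R, ∃ v₃ ∈ R,
      v₁ ≠ v₂ ∧ v₁ ≠ v₃ ∧ v₂ ≠ v₃ ∧ ∃ r₁ r₂ r₃ s₂ s₃ : 𝓞 K,
        r₁ ^ (n / p) - 2 ∈ v₁.asIdeal ∧ r₂ ^ (n / p) - 2 ∈ v₂.asIdeal ∧
        r₃ ^ (n / p) - 2 ∈ v₃.asIdeal ∧ s₂ ^ (n / p) + 1 ∈ v₂.asIdeal ∧
        s₃ ^ (n / p) + 1 ∈ v₃.asIdeal) := by
  subst hm
  obtain ⟨k, rfl⟩ := hn
  rw [Nat.mul_div_cancel_left k hp.pos] at hR hC ⊢
  have hmain := Pool.Agent.U549.LF.main hp k hx hy hz h R C hR hC r c t hr hc ht hB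
  obtain ⟨⟨h1, h2⟩, h3, h4⟩ := hmain
  refine ⟨⟨h1, fun v hv => ⟨?_, (h2 v hv).2⟩⟩, h3, h4⟩
  exact not_not.1 (h2 v hv).1

end Pool.Agent.Results.MP_ef6a16_nt.EqualValuations
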