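import Pool.Agent.Results.MP_ef6a16_nt.FewPointsAllFields
import Pool.Agent.U265.VH.Seq

/-!
# Fermat's equation over all number fields of bounded degree: no points near a point outside a set of Hausdorff dimension zero

Let `P`, `κ` be natural numbers. We consider the points `(a : b : c)`, `c ≠ 0`, of ALL the Fermat curves `a ^ p + b ^ p + c ^ p = 0`,
`R ≤ p ≤ Y ^ δ`, over ALL number fields of degree at most `κ` (embedded in `ℂ`), such that `a` and `b` are products of powers of `P`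
elements of absolute height at most `Y` with exponents of absolute value at most `Y ^ δ` (`Fermat`); so the points are of exponential
height. The starting result `FewPointsAllFields` shows that there are at most `Y ^ ε` of them, `R` and `δ` depending on `ε`.

**Theorem.** (1) There is ONE set `E` in `ℂ ^ 2` of Hausdorff dimension ZERO such that for all `x` outside of `E`, ALL `P`, `κ` and all
`σ > 0` there are `R` and `δ > 0` such that for all large `Y` no one of the points `(a / c, b / c)` is within `Y ^ (-σ)` of `x`.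
(2) There is one set `E` in `ℂ` of dimension zero such that for all `ξ` outside of `E`, all `P`, `κ`, `σ` there are `R`, `δ` such that for
all large `Y` no one of the ratios `a / b`, `a / c`, `b / c` is within `Y ^ (-σ)` of `ξ`. In particular for the projection `a / b` to the
line this excludes Fermat points in almost all places, in all of which there are complex points of all the curves.
(3) The same for the equations `∑ i, u i * s i * x i ^ d = v * s₀ * c * z ^ r` in any number of variables (`Sol`) and the quotients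
`x i / x 0`, with one set `E` of dimension zero for ALL fixed integral coefficients `u i ≠ 0`, `v`.

The proof: covers by the balls of radius `Y ^ (-σ)` around the points (`Pool.Agent.U265.VH.seq_law`, from
`Pool.Agent.N84.MD.scales` of the starting library).
-/

set_option autoImplicit false

namespace Pool.Agent.Results.MP_ef6a16_nt.FermatNearAPoint

open Filter
open Pool.Agent.Results.MP_ef6a16_nt.FewPointsAllFields (Sol Fermat)

/-- For all `σ > 0`, for suitable `R` and `δ > 0`, for all large `Y` no point of `Q R δ Y` is within `Y ^ (-σ)` of `x`. -/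
def Away {X : Type} (Q : ℕ → ℝ → ℕ → Set (X → ℂ)) (x : X → ℂ) : Prop :=
  ∀ σ : ℝ, 0 < σ → ∃ (R : ℕ) (δ : ℝ), 0 < δ ∧ ∀ᶠ Y : ℕ in atTop, ∀ q ∈ Q R δ Y, ∃ j, (Y : ℝ) ^ (-σ) < ‖x j - q j‖

/-- The points `(a / c, b / c)`, `(a, b, c)` as in `Fermat`. -/
def FermatPoints (P κ R : ℕ) (δ : ℝ) (Y : ℕ) : Set (Fin 2 → ℂ) := {q | ∃ a b c, Fermat P κ R δ Y a b c ∧ q = ![a / c, b / c]}

/-- The ratios `a / b`, `a / c` and `b / c`, `(a, b, c)` as in `Fermat`. -/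
def FermatRatios (P κ R : ℕ) (δ : ℝ) (Y : ℕ) : Set (Unit → ℂ) :=
  {q | ∃ a b c, Fermat P κ R δ Y a b c ∧ (q () = a / b ∨ q () = a / c ∨ q () = b / c)}

/-- The quotients `x i / x 0`, `i ≠ 0`, `x` as in `Sol`. -/
def Quotients {m : ℕ} (u : Fin (m + 1) → ℤ) (v : ℤ) (P κ F R : ℕ) (δ : ℝ) (Y : ℕ) : Set (Fin m → ℂ) :=
  {q | ∃ a : Fin (m + 1) → ℂ, Sol P κ F R δ Y u v a ∧ q = fun j => a j.succ / a 0}

lemma grow {δ δ' : ℝ} {Y Y' : ℕ} (hδ : 0 ≤ δ') (h : δ ≤ δ') (hY : 1 ≤ Y) (hYY : Y ≤ Y') : (Y : ℝ) ^ δ ≤ (Y' : ℝ) ^ δ' := by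
  have h1 : (1 : ℝ) ≤ Y := by exact_mod_cast hY
  have h2 : (Y : ℝ) ≤ Y' := by exact_mod_cast hYY
  exact (Real.rpow_le_rpow_of_exponent_le h1 h).trans (Real.rpow_le_rpow (by linarith) h2 hδ)

lemma fermat_mono {P κ R R' : ℕ} {δ δ' : ℝ} {Y Y' : ℕ} (hR : R' ≤ R) (hδ : 0 ≤ δ') (h : δ ≤ δ') (hY : 1 ≤ Y) (hYY : Y ≤ Y')
    {a b c : ℂ} (hs : Fermat P κ R δ Y a b c) : Fermat P κ R' δ' Y' a b c := by
  obtain ⟨K, i1, i2, σ, y, f, g, z, p, h1, h2, h3, h4, h5, h6, h7, h8, h9, h10, h11⟩ := hs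
  have hg := grow hδ h hY hYY
  have h0 : (Y : ℝ) ≤ Y' := by exact_mod_cast hYY
  exact ⟨K, i1, i2, σ, y, f, g, z, p, h1, hR.trans h2, h3.trans hg, fun j => (h4 j).trans hg, fun j => (h5 j).trans hg,
    fun j => ⟨(h6 j).1, (h6 j).2.trans (pow_le_pow_left₀ (Nat.cast_nonneg _) h0 _)⟩, h7, h8, h9, h10, h11⟩

lemma sol_mono {P κ F R R' : ℕ} {δ δ' : ℝ} {Y Y' : ℕ} (hR : R' ≤ R) (hδ : 0 ≤ δ') (h : δ ≤ δ') (hY : 1 ≤ Y) (hYY : Y ≤ Y')
    {n : ℕ} {u : Fin n → ℤ} {v : ℤ} {a : Fin n → ℂ} (hs : Sol P κ F R δ Y u v a) : Sol P κ F R' δ' Y' u v a := by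
  obtain ⟨K, i1, i2, σ, y, s, s₀, z, f, e, d, r, h1, h2, h3, h4, h5, h6, h7, h8, h9, h10, h11, h12, h13, h14⟩ := hs
  have hg := grow hδ h hY hYY
  have h0 : (Y : ℝ) ≤ Y' := by exact_mod_cast hYY
  have h00 : ((Y : ℝ) ^ F) ≤ (Y' : ℝ) ^ F := pow_le_pow_left₀ (Nat.cast_nonneg _) h0 _
  exact ⟨K, i1, i2, σ, y, s, s₀, z, f, e, d, r, h1, hR.trans h2, h3.trans hg, hR.trans h4, h5.trans hg,
    fun i j => (h6 i j).trans hg, fun j => (h7 j).trans hg,
    fun j => ⟨(h8 j).1, (h8 j).2.trans (pow_le_pow_left₀ (Nat.cast_nonneg _) h0 _)⟩,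
    fun i => ⟨(h9 i).1, (h9 i).2.trans (pow_le_pow_left₀ (by positivity) h00 _)⟩, h10,
    h11.trans (pow_le_pow_left₀ (by positivity) h00 _), h12, h13, h14⟩

lemma points_mono {P κ R R' : ℕ} {δ δ' : ℝ} {Y Y' : ℕ} (hR : R' ≤ R) (hδ : 0 ≤ δ') (h : δ ≤ δ') (hY : 1 ≤ Y) (hYY : Y ≤ Y') :
    FermatPoints P κ R δ Y ⊆ FermatPoints P κ R' δ' Y' := by
  rintro q ⟨a, b, c, h1, h2⟩
  exact ⟨a, b, c, fermat_mono hR hδ h hY hYY h1, h2⟩

lemma ratios_mono {P κ R R' : ℕ} {δ δ' : ℝ} {Y Y' : ℕ} (hR : R' ≤ R) (hδ : 0 ≤ δ') (h : δ ≤ δ') (hY : 1 ≤ Y) (hYY : Y ≤ Y') :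
    FermatRatios P κ R δ Y ⊆ FermatRatios P κ R' δ' Y' := by
  rintro q ⟨a, b, c, h1, h2⟩
  exact ⟨a, b, c, fermat_mono hR hδ h hY hYY h1, h2⟩

lemma quotients_mono {m : ℕ} {u : Fin (m + 1) → ℤ} {v : ℤ} {P κ F R R' : ℕ} {δ δ' : ℝ} {Y Y' : ℕ} (hR : R' ≤ R)
    (hδ : 0 ≤ δ') (h : δ ≤ δ') (hY : 1 ≤ Y) (hYY : Y ≤ Y') : Quotients u v P κ F R δ Y ⊆ Quotients u v P κ F R' δ' Y' := by
  rintro q ⟨a, h1, h2⟩
  exact ⟨a, sol_mono hR hδ h hY hYY h1, h2⟩

/-- the number of points is at most the number of lines -/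
lemma points_card {P κ R : ℕ} {δ : ℝ} {Y : ℕ} {N : ℝ}
    (h : {W : Submodule ℂ (Fin 3 → ℂ) | ∃ a b c, Fermat P κ R δ Y a b c ∧ W = Submodule.span ℂ {![a, b, c]}}.Finite ∧
      ({W : Submodule ℂ (Fin 3 → ℂ) | ∃ a b c, Fermat P κ R δ Y a b c ∧ W = Submodule.span ℂ {![a, b, c]}}.ncard : ℝ) ≤ N) :
    (FermatPoints P κ R δ Y).Finite ∧ ((FermatPoints P κ R δ Y).ncard : ℝ) ≤ N := by
  obtain ⟨f, hf⟩ : ∃ f : (Fin 2 → ℂ) → Submodule ℂ (Fin 3 → ℂ), f = fun q => Submodule.span ℂ {![q 0, q 1, 1]} := ⟨_, rfl⟩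
  have hmaps : Set.MapsTo f (FermatPoints P κ R δ Y)
      {W : Submodule ℂ (Fin 3 → ℂ) | ∃ a b c, Fermat P κ R δ Y a b c ∧ W = Submodule.span ℂ {![a, b, c]}} := by
    rintro q ⟨a, b, c, h1, rfl⟩
    have hc : c ≠ 0 := by
      obtain ⟨K, i1, i2, σ, y, f, g, z, p, -, -, -, -, -, -, h7, -, -, h10, -⟩ := h1
      rw [h10]
      exact (map_ne_zero σ).2 h7
    refine ⟨a, b, c, h1, ?_⟩
    have h2 : (![a, b, c] : Fin 3 → ℂ) = c • ![a / c, b / c, 1] := by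
      funext i
      fin_cases i
      · simp [mul_div_cancel₀ a hc]
      · simp [mul_div_cancel₀ b hc]
      · simp
    rw [h2, Submodule.span_singleton_smul_eq (isUnit_iff_ne_zero.2 hc), hf]
    simp
  have hinj : Set.InjOn f (FermatPoints P κ R δ Y) := by
    intro q _ q' _ h1
    rw [hf] at h1
    have h2 : (![q 0, q 1, 1] : Fin 3 → ℂ) ∈ Submodule.span ℂ {![q' 0, q' 1, 1]} := by
      have h3 : Submodule.span ℂ {![q 0, q 1, 1]} = Submodule.span ℂ {![q' 0, q' 1, 1]} := h1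
      rw [← h3]
      exact Submodule.mem_span_singleton_self _
    obtain ⟨l, hl⟩ := Submodule.mem_span_singleton.1 h2
    have e2 := congrFun hl 2
    have e0 := congrFun hl 0
    have e1 := congrFun hl 1
    simp at e0 e1 e2
    rw [e2, one_mul] at e0 e1
    funext i
    fin_cases i
    · exact e0.symm
    · exact e1.symm
  refine ⟨Set.Finite.of_injOn hmaps hinj h.1, le_trans ?_ h.2⟩
  exact_mod_cast Set.ncard_le_ncard_of_injOn f hmaps hinj h.1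

lemma ratios_card {P κ R : ℕ} {δ : ℝ} {Y : ℕ} (h : (FermatPoints P κ R δ Y).Finite) :
    (FermatRatios P κ R δ Y).Finite ∧ (FermatRatios P κ R δ Y).ncard ≤ 3 * (FermatPoints P κ R δ Y).ncard := by
  have hsub : FermatRatios P κ R δ Y ⊆ (fun q (_ : Unit) => q 0 / q 1) '' FermatPoints P κ R δ Y ∪
      ((fun q (_ : Unit) => q 0) '' FermatPoints P κ R δ Y ∪ (fun q (_ : Unit) => q 1) '' FermatPoints P κ R δ Y) := by
    rintro q ⟨a, b, c, h1, h2⟩
    have hc : c ≠ 0 := by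
      obtain ⟨K, i1, i2, σ, y, f, g, z, p, -, -, -, -, -, -, h7, -, -, h10, -⟩ := h1
      rw [h10]
      exact (map_ne_zero σ).2 h7
    rcases h2 with h2 | h2 | h2
    · refine Or.inl ⟨_, ⟨a, b, c, h1, rfl⟩, ?_⟩
      funext t
      show a / c / (b / c) = q ()
      rw [h2, div_div_div_cancel_right₀ hc]
    · refine Or.inr (Or.inl ⟨_, ⟨a, b, c, h1, rfl⟩, ?_⟩)
      funext t
      exact h2.symm
    · refine Or.inr (Or.inr ⟨_, ⟨a, b, c, h1, rfl⟩, ?_⟩)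
      funext t
      exact h2.symm
  have hfin := (h.image fun q (_ : Unit) => q 0 / q 1).union
    ((h.image fun q (_ : Unit) => q 0).union (h.image fun q (_ : Unit) => q 1))
  refine ⟨hfin.subset hsub, (Set.ncard_le_ncard hsub hfin).trans ?_⟩
  have h1 := Set.ncard_union_le ((fun q (_ : Unit) => q 0 / q 1) '' FermatPoints P κ R δ Y)
    ((fun q (_ : Unit) => q 0) '' FermatPoints P κ R δ Y ∪ (fun q (_ : Unit) => q 1) '' FermatPoints P κ R δ Y)
  have h2 := Set.ncard_union_le ((fun q (_ : Unit) => q 0) '' FermatPoints P κ R δ Y)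
    ((fun q (_ : Unit) => q 1) '' FermatPoints P κ R δ Y)
  have h3 := Set.ncard_image_le (f := fun (q : Fin 2 → ℂ) (_ : Unit) => q 0 / q 1) h
  have h4 := Set.ncard_image_le (f := fun (q : Fin 2 → ℂ) (_ : Unit) => q 0) h
  have h5 := Set.ncard_image_le (f := fun (q : Fin 2 → ℂ) (_ : Unit) => q 1) h
  omega

lemma quotients_card {m : ℕ} {u : Fin (m + 1) → ℤ} {v : ℤ} {P κ F R : ℕ} {δ : ℝ} {Y : ℕ} {N : ℝ}
    (h : {W : Submodule ℂ (Fin (m + 1) → ℂ) | ∃ x, Sol P κ F R δ Y u v x ∧ W = Submodule.span ℂ {x}}.Finite ∧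
      ({W : Submodule ℂ (Fin (m + 1) → ℂ) | ∃ x, Sol P κ F R δ Y u v x ∧ W = Submodule.span ℂ {x}}.ncard : ℝ) ≤ N) :
    (Quotients u v P κ F R δ Y).Finite ∧ ((Quotients u v P κ F R δ Y).ncard : ℝ) ≤ N := by
  obtain ⟨f, hf⟩ : ∃ f : (Fin m → ℂ) → Submodule ℂ (Fin (m + 1) → ℂ),
    f = fun q => Submodule.span ℂ {(Fin.cons 1 q : Fin (m + 1) → ℂ)} := ⟨_, rfl⟩
  have hmaps : Set.MapsTo f (Quotients u v P κ F R δ Y)
      {W : Submodule ℂ (Fin (m + 1) → ℂ) | ∃ x, Sol P κ F R δ Y u v x ∧ W = Submodule.span ℂ {x}} := by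
    rintro q ⟨a, h1, rfl⟩
    have hc : a 0 ≠ 0 := by
      obtain ⟨K, i1, i2, σ, y, s, s₀, z, f, e, d, r, -, -, -, -, -, -, -, h8, -, -, -, h12, -⟩ := h1
      rw [h12]
      exact (map_ne_zero σ).2 (Finset.prod_ne_zero_iff.2 fun j _ => zpow_ne_zero _ (h8 j).1)
    refine ⟨a, h1, ?_⟩
    have h2 : a = a 0 • (Fin.cons 1 (fun j : Fin m => a j.succ / a 0) : Fin (m + 1) → ℂ) := by
      funext i
      refine Fin.cases ?_ (fun j => ?_) i
      · simp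
      · simp [mul_div_cancel₀ (a j.succ) hc]
    have h3 : Submodule.span ℂ {a} =
        Submodule.span ℂ {(Fin.cons 1 (fun j : Fin m => a j.succ / a 0) : Fin (m + 1) → ℂ)} := by
      conv_lhs => rw [h2]
      exact Submodule.span_singleton_smul_eq (isUnit_iff_ne_zero.2 hc) _
    rw [h3, hf]
  have hinj : Set.InjOn f (Quotients u v P κ F R δ Y) := by
    intro q _ q' _ h1
    rw [hf] at h1
    have h2 : (Fin.cons 1 q : Fin (m + 1) → ℂ) ∈ Submodule.span ℂ {(Fin.cons 1 q' : Fin (m + 1) → ℂ)} := by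
      have h3 : Submodule.span ℂ {(Fin.cons 1 q : Fin (m + 1) → ℂ)} =
        Submodule.span ℂ {(Fin.cons 1 q' : Fin (m + 1) → ℂ)} := h1
      rw [← h3]
      exact Submodule.mem_span_singleton_self _
    obtain ⟨l, hl⟩ := Submodule.mem_span_singleton.1 h2
    have e0 := congrFun hl 0
    rw [Pi.smul_apply, Fin.cons_zero, Fin.cons_zero, smul_eq_mul, mul_one] at e0
    funext j
    have e1 := congrFun hl j.succ
    rw [Pi.smul_apply, Fin.cons_succ, Fin.cons_succ, smul_eq_mul, e0, one_mul] at e1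
    exact e1.symm
  refine ⟨Set.Finite.of_injOn hmaps hinj h.1, le_trans ?_ h.2⟩
  exact_mod_cast Set.ncard_le_ncard_of_injOn f hmaps hinj h.1

lemma inv_pos' (b : ℕ) : (0 : ℝ) < 1 / ((b : ℝ) + 1) := by positivity

lemma inv_mono' (b : ℕ) : 1 / (((b + 1 : ℕ) : ℝ) + 1) ≤ 1 / ((b : ℝ) + 1) := by
  apply one_div_le_one_div_of_le (by positivity)
  push_cast
  linarith

lemma pick (R : ℕ) {δ : ℝ} (hδ : 0 < δ) : ∃ b : ℕ, R ≤ b ∧ 1 / ((b : ℝ) + 1) ≤ δ := by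
  obtain ⟨n, hn⟩ := exists_nat_one_div_lt hδ
  refine ⟨max R n, le_max_left _ _, le_trans ?_ hn.le⟩
  apply one_div_le_one_div_of_le (by positivity)
  have : (n : ℝ) ≤ ((max R n : ℕ) : ℝ) := by exact_mod_cast le_max_right R n
  linarith

/-- **Fermat points near a point outside a set of Hausdorff dimension zero.** -/
theorem result :
    (∃ E : Set (Fin 2 → ℂ), dimH E = 0 ∧ ∀ x, x ∉ E → ∀ P κ : ℕ, Away (FermatPoints P κ) x) ∧
    (∃ E : Set ℂ, dimH E = 0 ∧ ∀ ξ, ξ ∉ E → ∀ P κ : ℕ, Away (FermatRatios P κ) fun _ => ξ) ∧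
    ∀ m : ℕ, ∃ E : Set (Fin m → ℂ), dimH E = 0 ∧ ∀ x, x ∉ E → ∀ (P κ F : ℕ) (u : Fin (m + 1) → ℤ) (v : ℤ),
      (∀ i, u i ≠ 0) → Away (Quotients u v P κ F) x := by
  classical
  have hsingle := fun (P κ : ℕ) (ε : ℝ) (hε : 0 < ε) => (FewPointsAllFields.result P κ ε hε).1
  refine ⟨?_, ?_, fun m => ?_⟩
  · obtain ⟨E, hE, hlaw⟩ := Pool.Agent.U265.VH.seq_law
      (fun (a : ℕ × ℕ) (b Y : ℕ) => FermatPoints a.1 a.2 b (1 / ((b : ℝ) + 1)) Y)
      (fun a b Y Y' h1 h2 => points_mono (Nat.le_succ b) (inv_pos' b).le (inv_mono' b) h1 h2)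
      (fun a ε hε => by
        obtain ⟨R, δ, hδ, H⟩ := hsingle a.1 a.2 ε hε
        obtain ⟨b, hb1, hb2⟩ := pick R hδ
        refine ⟨b, 1, 1, zero_le_one, fun Y hY => ?_⟩
        obtain ⟨h1, h2⟩ := points_card (H Y hY)
        have hsub : FermatPoints a.1 a.2 b (1 / ((b : ℝ) + 1)) Y ⊆ FermatPoints a.1 a.2 R δ Y :=
          points_mono hb1 hδ.le hb2 hY le_rfl
        refine ⟨h1.subset hsub, ?_⟩
        rw [one_mul]
        refine le_trans ?_ h2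
        exact_mod_cast Set.ncard_le_ncard hsub h1)
    refine ⟨E, hE, fun x hx P κ σ hσ => ?_⟩
    obtain ⟨b, hb⟩ := hlaw x hx (P, κ) σ hσ
    exact ⟨b, _, inv_pos' b, hb⟩
  · obtain ⟨E, hE, hlaw⟩ := Pool.Agent.U265.VH.seq_law
      (fun (a : ℕ × ℕ) (b Y : ℕ) => FermatRatios a.1 a.2 b (1 / ((b : ℝ) + 1)) Y)
      (fun a b Y Y' h1 h2 => ratios_mono (Nat.le_succ b) (inv_pos' b).le (inv_mono' b) h1 h2)
      (fun a ε hε => by
        obtain ⟨R, δ, hδ, H⟩ := hsingle a.1 a.2 ε hε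
        obtain ⟨b, hb1, hb2⟩ := pick R hδ
        refine ⟨b, 1, 3, by norm_num, fun Y hY => ?_⟩
        obtain ⟨h1, h2⟩ := points_card (H Y hY)
        obtain ⟨h3, h4⟩ := ratios_card h1
        have hsub : FermatRatios a.1 a.2 b (1 / ((b : ℝ) + 1)) Y ⊆ FermatRatios a.1 a.2 R δ Y :=
          ratios_mono hb1 hδ.le hb2 hY le_rfl
        refine ⟨h3.subset hsub, ?_⟩
        have h5 : ((FermatRatios a.1 a.2 R δ Y).ncard : ℝ) ≤ 3 * (FermatPoints a.1 a.2 R δ Y).ncard := by exact_mod_cast h4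
        have h6 : ((FermatRatios a.1 a.2 b (1 / ((b : ℝ) + 1)) Y).ncard : ℝ) ≤ (FermatRatios a.1 a.2 R δ Y).ncard := by
          exact_mod_cast Set.ncard_le_ncard hsub h3
        linarith)
    have hiso : Isometry (fun (ξ : ℂ) (_ : Unit) => ξ) := by
      refine Isometry.of_dist_eq fun ξ η => ?_
      rw [dist_pi_const]
    refine ⟨(fun (ξ : ℂ) (_ : Unit) => ξ) ⁻¹' E, ?_, fun ξ hξ P κ σ hσ => ?_⟩
    · refine le_antisymm ?_ bot_le
      rw [← hiso.dimH_image]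
      exact (dimH_mono (Set.image_preimage_subset _ _)).trans hE.le
    · obtain ⟨b, hb⟩ := hlaw (fun _ => ξ) hξ (P, κ) σ hσ
      exact ⟨b, _, inv_pos' b, hb⟩
  · obtain ⟨E, hE, hlaw⟩ := Pool.Agent.U265.VH.seq_law
      (fun (a : {w : (ℕ × ℕ × ℕ) × (Fin (m + 1) → ℤ) × ℤ // ∀ i, w.2.1 i ≠ 0}) (b Y : ℕ) =>
        Quotients a.1.2.1 a.1.2.2 a.1.1.1 a.1.1.2.1 a.1.1.2.2 b (1 / ((b : ℝ) + 1)) Y)
      (fun a b Y Y' h1 h2 => quotients_mono (Nat.le_succ b) (inv_pos' b).le (inv_mono' b) h1 h2)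
      (fun a ε hε => by
        obtain ⟨⟨⟨P, κ, F⟩, u, v⟩, hu⟩ := a
        obtain ⟨R, δ, hδ, H⟩ := (FewPointsAllFields.result P κ ε hε).2 (m + 1) F (Nat.succ_pos m)
        obtain ⟨b, hb1, hb2⟩ := pick R hδ
        have hexp : Tendsto (fun Y : ℕ => Real.exp ((Y : ℝ) ^ δ)) atTop atTop :=
          Real.tendsto_exp_atTop.comp ((tendsto_rpow_atTop hδ).comp tendsto_natCast_atTop_atTop)
        have h1 : ∀ᶠ Y : ℕ in atTop, (∀ i, (((|u i| : ℤ)) : ℝ) ≤ Real.exp ((Y : ℝ) ^ δ)) ∧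
            ((|v| : ℤ) : ℝ) ≤ Real.exp ((Y : ℝ) ^ δ) ∧ 1 ≤ Y :=
          (eventually_all.2 fun i => hexp.eventually_ge_atTop _).and
            ((hexp.eventually_ge_atTop _).and (eventually_ge_atTop 1))
        obtain ⟨Y₀, hY₀⟩ := eventually_atTop.1 h1
        refine ⟨b, Y₀, 1, zero_le_one, fun Y hY => ?_⟩
        obtain ⟨g1, g2, g3⟩ := hY₀ Y hY
        obtain ⟨h1, h2⟩ := quotients_card (H Y g3 u v (fun i => ⟨hu i, g1 i⟩) g2)
        have hsub : Quotients u v P κ F b (1 / ((b : ℝ) + 1)) Y ⊆ Quotients u v P κ F R δ Y :=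
          quotients_mono hb1 hδ.le hb2 g3 le_rfl
        refine ⟨h1.subset hsub, ?_⟩
        rw [one_mul]
        refine le_trans ?_ h2
        exact_mod_cast Set.ncard_le_ncard hsub h1)
    refine ⟨E, hE, fun x hx P κ F u v hu σ hσ => ?_⟩
    obtain ⟨b, hb⟩ := hlaw x hx ⟨((P, κ, F), u, v), hu⟩ σ hσ
    exact ⟨b, _, inv_pos' b, hb⟩

end Pool.Agent.Results.MP_ef6a16_nt.FermatNearAPoint
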