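import Pool.Agent.U549.FW.Quad

/-!
# The theorem of Furtwängler over arbitrary number fields

Let `K` be a number field of degree `m`, let `p` be a prime with `m + 3 ≤ p` and `2 m < p`, and let
`a ^ p + b ^ p + c ^ p = 0` with nonzero `a`, `b`, `c` in `K`. Nothing is assumed about the primes
above `p`: the solution may belong to the first case, to the second case or be of a mixed type. (For
an equation `x ^ n + y ^ n = z ^ n` with `p ∣ n` take the powers with exponent `n / p`.)

At every place `v` the three valuations are equal, or one of `a`, `b`, `c` has a larger order than the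
two others, which have the same order; we say that `v` divides it. For a prime number `l` let
`D_l (a)`, `D_l (b)`, `D_l (c)` be the sums of the local degrees of the places above `l` which divide
`a`, `b`, `c`, and `E_l` the sum of the local degrees of the places above `l` with equal valuations;
so `D_l (a) + D_l (b) + D_l (c) + E_l = m`. An auxiliary prime `q` is a prime number `q ≠ p` such that
`q ^ (p - 1)` is not `1` modulo `p ^ 2`. It is good for the pair `a, b` if at every place `v` above `q`
which divides neither `a` nor `b` either `N v ≤ 4`, or `v` divides `c` and `N v` is not `1` modulo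
`p`, or the valuations are equal and `(a / b) ^ (q + 1)` is `1` modulo `v`. We prove:

(1) The number `D_q (a) - D_q (b)` is the same for all auxiliary primes `q` which are good for
    `a, b`. If the Bernoulli condition `Bern p m t` is satisfied for some `t ≥ E_p` (for instance if
    `E_p = 0`), then it is also equal to `D_p (a) - D_p (b)`. In general
    `Tr w = (D_q (a) - D_q (b)) - (D_p (a) - D_p (b))` modulo `p` for every integer `w` of `K` which is
    `(a - b) / c` modulo the places above `p` with equal valuations and `0` modulo the other places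
    above `p`.
(2) If all places above the auxiliary prime `q` divide `a`, then there is no auxiliary prime such that
    all places above it divide `b`, or all places above it divide `c`; if an auxiliary prime `r` is
    good for `a, b` (for instance, if all the norms of the places above it are at most four), then all
    places above it divide `a`; and, under the Bernoulli condition, all places above `p` divide `a`.
(3) If `q` is good for all three pairs, then `3 D_q + E_q = 3 D_p + E_p` for each of `a`, `b`, `c`
    under the Bernoulli condition. Without this condition, if `2 m + 3 ≤ p` and `E_p = 1`, then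
    `E_q = 1` modulo `3` and `E_q + 8 ≤ 3 m`.

Over the rational numbers (2) says that if a prime `q` divides `a` and `p` does not, then
`q ^ (p - 1)` is `1` modulo `p ^ 2`, the theorem of Furtwängler.

Proof. Let `f` be the polynomial `N (X + T Y)`, where `X`, `Y`, `Z` are integral, proportional to `a`,
`b`, `c` and not all divisible by the same prime above `p q`. Stickelberger's relation for the Jacobi
sum belonging to `b` says that the product of the conjugates `f (ζ ^ (1 / t))` over a certain set of
residues `t`, divided by rational numbers and powers of the `ζ ^ (1 / t) - 1`, is `ζ ^ i γ ^ p`. The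
exponent `i` is computed from the logarithmic derivative of `f` modulo `p`, which is a sum over the
embeddings of `K`; this gives the trace. On the other hand, `f` modulo `q` is, up to a power of `T`
and a sign, equal to its reflection: its roots different from `0` are permuted by the Frobenius
automorphism, which is the inversion on them, as `q` is good. Comparison of the relation with the
complex conjugate one modulo a prime above `q` of the cyclotomic field, where the product is prime to
`q`, gives another value for `i`, unless a root of unity of order `p` is a `p`-th power modulo `q`,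
that is, `p ^ 2` divides `q ^ (p - 1) - 1`. Under the Bernoulli condition the family of the residues
of the conjugates of `(X : Y : Z)` at the places with equal valuations is stable under permutation of
the coordinates (see `EqualValuations`), and the sum of the `(X - Y) / Z` vanishes. The last statement
of (3) follows from `A + B + C = - A B C` for `A = (X - Y) / Z`, `B = (Y - Z) / X`, `C = (Z - X) / Y`.
-/

set_option autoImplicit false

namespace Pool.Agent.Results.MP_ef6a16_nt.FurtwaenglerTheorem

open NumberField IsDedekindDomain

/-- `q` is a prime number other than `p`, and `q ^ (p - 1)` is not `1` modulo `p ^ 2` -/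
def Aux (p q : ℕ) : Prop := q.Prime ∧ q ≠ p ∧ ¬ p ^ 2 ∣ q ^ (p - 1) - 1

/-- The even numbers `k` with `2 ≤ k ≤ p - 3` for which `p` divides the numerator of the Bernoulli
number with index `k`. Their number is the index of irregularity of `p`. -/
def Irregular (p : ℕ) : Finset ℕ :=
  (Finset.range p).filter fun k => Even k ∧ 2 ≤ k ∧ k + 3 ≤ p ∧ (p : ℤ) ∣ (bernoulli k).num

/-- `p` does not divide the Bernoulli numbers with index `p - 3`, `p - 5`, ..., `p - 2 t - 1`, or its
index of irregularity is small -/
def Bern (p m t : ℕ) : Prop :=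
  (m + t + 3 ≤ p ∧ ∀ k ∈ Irregular p, k + 2 * t + 1 < p) ∨
    t * (((Irregular p).card + 1) * ((Irregular p).card + 2)) + m + 3 ≤ p + t

section

variable {K : Type} [Field K] [NumberField K]

/-- the local degree of `v` over `l`, the product of the ramification index and the residue
degree -/
noncomputable def locDeg (l : ℕ) (v : HeightOneSpectrum (𝓞 K)) : ℕ :=
  Ideal.ramificationIdx' (Ideal.span {(l : ℤ)}) v.asIdeal *
    Ideal.inertiaDeg' (Ideal.span {(l : ℤ)}) v.asIdeal

/-- `a`, `b` and `c` have the same valuation at `v` -/
def EqualAt (v : HeightOneSpectrum (𝓞 K)) (a b c : K) : Prop :=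
  v.valuation K a = v.valuation K b ∧ v.valuation K b = v.valuation K c

/-- `v` divides `a` to a higher power than `b` and `c` (its valuation, in multiplicative notation, is
smaller) -/
def Divides (v : HeightOneSpectrum (𝓞 K)) (a b c : K) : Prop :=
  v.valuation K a < v.valuation K b ∧ v.valuation K a < v.valuation K c

/-- `D_l (a)`, the sum of the local degrees of the places above `l` which divide `a` to a higher power
than `b` and `c` -/
noncomputable def divDeg (l : ℕ) (a b c : K) : ℕ :=
  ∑ᶠ (v : HeightOneSpectrum (𝓞 K)) (_ : ((l : ℕ) : 𝓞 K) ∈ v.asIdeal ∧ Divides v a b c), locDeg l v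

/-- `E_l`, the sum of the local degrees of the places above `l` at which `a`, `b`, `c` have the same
valuation -/
noncomputable def eqDeg (l : ℕ) (a b c : K) : ℕ :=
  ∑ᶠ (v : HeightOneSpectrum (𝓞 K)) (_ : ((l : ℕ) : 𝓞 K) ∈ v.asIdeal ∧ EqualAt v a b c), locDeg l v

/-- all places above `l` divide `a` to a higher power than `b` and `c` -/
def Full (l : ℕ) (a b c : K) : Prop :=
  ∀ v : HeightOneSpectrum (𝓞 K), ((l : ℕ) : 𝓞 K) ∈ v.asIdeal → Divides v a b c

/-- `q` is good for the pair `a, b`: at every place `v` above `q` the norm is at most four, or it is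
not `1` modulo `p` if `v` divides `c` to a higher power than `a`, and `(a / b) ^ (q + 1)` is `1` modulo
`v` if `a`, `b`, `c` have the same valuation -/
def Good (p q : ℕ) (a b c : K) : Prop :=
  ∀ v : HeightOneSpectrum (𝓞 K), ((q : ℕ) : 𝓞 K) ∈ v.asIdeal →
    Ideal.absNorm v.asIdeal ≤ 4 ∨
      ((v.valuation K c < v.valuation K a → ¬ p ∣ Ideal.absNorm v.asIdeal - 1) ∧
        (EqualAt v a b c →
          v.valuation K (a ^ (q + 1) - b ^ (q + 1)) < v.valuation K (b ^ (q + 1))))

/-- `w` is `(a - b) / c` modulo the places above `p` with equal valuations and `0` modulo the other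
places above `p` -/
def Approx (p : ℕ) (w : 𝓞 K) (a b c : K) : Prop :=
  ∀ v : HeightOneSpectrum (𝓞 K), ((p : ℕ) : 𝓞 K) ∈ v.asIdeal →
    (EqualAt v a b c → v.valuation K ((w : K) * c - (a - b)) < v.valuation K c) ∧
    (¬ EqualAt v a b c → w ∈ v.asIdeal)

theorem Good.lib {p q : ℕ} (hp5 : 5 ≤ p) {a b c : K} (h : Good p q a b c) :
    U549.FW.Good p q a b c := by
  intro v hv
  rcases h v hv with h1 | h1
  · refine ⟨fun _ hd => ?_, fun _ => Or.inl h1⟩
    have hfin : Finite (𝓞 K ⧸ v.asIdeal) :=
      Ideal.finiteQuotientOfFreeOfNeBot v.asIdeal v.ne_bot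
    have hnt : Nontrivial (𝓞 K ⧸ v.asIdeal) :=
      Ideal.Quotient.nontrivial_iff.2 v.isPrime.ne_top
    have hck : Nat.card (𝓞 K ⧸ v.asIdeal) = Ideal.absNorm v.asIdeal := rfl
    have h2 : 1 < Ideal.absNorm v.asIdeal := by
      rw [← hck]
      exact Finite.one_lt_card
    have := Nat.le_of_dvd (by omega) hd
    omega
  · exact ⟨h1.1, fun h2 => Or.inr (h1.2 h2)⟩

end

theorem result (K : Type) [Field K] [NumberField K] (m : ℕ) (hm : Module.finrank ℚ K = m)
    (p : ℕ) (hp : p.Prime) (h3 : m + 3 ≤ p) (h2 : 2 * m < p)
    (a b c : K) (h : a ^ p + b ^ p + c ^ p = 0) (ha : a ≠ 0) (hb : b ≠ 0) (hc : c ≠ 0)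
    (q : ℕ) (hq : Aux p q) :
    -- (1)
    (Good p q a b c →
      (∀ r : ℕ, Aux p r → Good p r a b c →
        divDeg q a b c + divDeg r b c a = divDeg q b c a + divDeg r a b c) ∧
      (∀ t : ℕ, (t = m ∨ eqDeg p a b c ≤ t) → Bern p m t →
        divDeg q a b c + divDeg p b c a = divDeg q b c a + divDeg p a b c) ∧
      (∀ w : 𝓞 K, Approx p w a b c → ((Algebra.trace ℤ (𝓞 K) w : ℤ) : ZMod p) =
        (divDeg q a b c - divDeg q b c a) - (divDeg p a b c - divDeg p b c a))) ∧
    -- (2)
    (Full q a b c →
      (∀ r : ℕ, Aux p r → (Good p r a b c → Full r a b c) ∧ ¬ Full r b c a ∧ ¬ Full r c a b) ∧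
      (∀ t : ℕ, (t = m ∨ eqDeg p a b c ≤ t) → Bern p m t → Full p a b c)) ∧
    -- (3)
    (Good p q a b c → Good p q b c a → Good p q c a b →
      (∀ t : ℕ, (t = m ∨ eqDeg p a b c ≤ t) → Bern p m t →
        3 * divDeg q a b c + eqDeg q a b c = 3 * divDeg p a b c + eqDeg p a b c ∧
        3 * divDeg q b c a + eqDeg q a b c = 3 * divDeg p b c a + eqDeg p a b c ∧
        3 * divDeg q c a b + eqDeg q a b c = 3 * divDeg p c a b + eqDeg p a b c) ∧
      (2 * m + 3 ≤ p → eqDeg p a b c = 1 →
        eqDeg q a b c % 3 = 1 ∧ eqDeg q a b c + 8 ≤ 3 * m)) := by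
  subst hm
  obtain ⟨hq1, hqp, hW⟩ := hq
  have hm := Module.finrank_pos (R := ℚ) (M := K)
  have hp4 : p ≠ 4 := by
    rintro rfl
    norm_num at hp
  have hp5 : 5 ≤ p := by omega
  refine ⟨fun hg => ⟨fun r hr hgr => ?_, fun t ht hB => ?_, fun w hw => ?_⟩, fun hF =>
    ⟨fun r hr => ?_, fun t ht hB => ?_⟩, fun g1 g2 g3 => ⟨fun t ht hB => ?_, fun h4 hs => ?_⟩⟩
  · exact U549.FW.main_two hp ha hb hc h h3 h2 hq1 hqp hW (hg.lib hp5) hr.1 hr.2.1 hr.2.2
      (hgr.lib hp5)
  · exact (U549.FW.main_pair hp ha hb hc h h3 hq1 hqp hW (hg.lib hp5)).2 t ht hB h2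
  · have h5 := (U549.FW.main_pair hp ha hb hc h h3 hq1 hqp hW (hg.lib hp5)).1 w hw
    have h6 : ((Algebra.trace ℤ (𝓞 K) w : ℤ) : ZMod p) + divDeg p a b c - divDeg p b c a =
      divDeg q a b c - divDeg q b c a := h5
    linear_combination h6
  · have h5 := U549.FW.full_two hp ha hb hc h h3 h2 hq1 hqp hW hF hr.1 hr.2.1 hr.2.2
    exact ⟨fun hg => h5.1 (hg.lib hp5), h5.2⟩
  · exact U549.FW.furt hp ha hb hc h t ht hB h2 hq1 hqp hW hF
  · exact U549.FW.three hp ha hb hc h t ht hB h2 hq1 hqp hW (g1.lib hp5) (g2.lib hp5)
  · exact U549.FW.single' hp ha hb hc h h3 h4 hq1 hqp hW (g1.lib hp5) (g2.lib hp5) (g3.lib hp5) hs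

end Pool.Agent.Results.MP_ef6a16_nt.FurtwaenglerTheorem
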